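import Pool.Agent.MP_2b113a_an.H41.AMFix

/-!
The amenability half of the argument.
-/

namespace Pool.Agent.MP_2b113a_an.H41

open MeasureTheory Filter Topology Pool.Agent.MP_2b113a_an.H33

section Fun

variable {G : Type} [Group G] [MeasurableSpace G] {m : Measure G} {Γ : Subgroup G} (Λ : Lat m Γ)

/-- The functional attached to a function on the lattice. -/
noncomputable def fn (φ : Γ → ℝ) (ψ : Lp ℝ 1 m) : ℝ := ∫ y, ψ y * φ (Λ.c y) ∂m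

variable [Countable Γ]

theorem meas_comp (φ : Γ → ℝ) : Measurable fun y => φ (Λ.c y) := by
  have h : @Measurable G Γ _ ⊤ Λ.c := @measurable_to_countable' Γ G ⊤ _ _ _ Λ.meas
  exact (@measurable_from_top Γ ℝ _ φ).comp h

theorem int_fn {φ : Γ → ℝ} {C : ℝ} (hφ : ∀ g, |φ g| ≤ C) (ψ : Lp ℝ 1 m) :
    Integrable (fun y => ψ y * φ (Λ.c y)) m :=
  (L1.integrable_coeFn ψ).mul_bdd (meas_comp Λ φ).aestronglyMeasurable
    (Eventually.of_forall fun _ => hφ _)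

theorem fn_add {φ : Γ → ℝ} {C : ℝ} (hφ : ∀ g, |φ g| ≤ C) (ψ ψ' : Lp ℝ 1 m) :
    fn Λ φ (ψ + ψ') = fn Λ φ ψ + fn Λ φ ψ' := by
  rw [fn, fn, fn, ← integral_add (int_fn Λ hφ ψ) (int_fn Λ hφ ψ')]
  refine integral_congr_ae ?_
  filter_upwards [Lp.coeFn_add ψ ψ'] with y hy
  rw [hy, Pi.add_apply, add_mul]

omit [Countable Γ] in
theorem fn_smul (φ : Γ → ℝ) (c : ℝ) (ψ : Lp ℝ 1 m) : fn Λ φ (c • ψ) = c * fn Λ φ ψ := by
  rw [fn, fn, ← integral_const_mul]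
  refine integral_congr_ae ?_
  filter_upwards [Lp.coeFn_smul c ψ] with y hy
  rw [hy, Pi.smul_apply, smul_eq_mul, mul_assoc]

omit [Countable Γ] in
theorem fn_bound {φ : Γ → ℝ} {C : ℝ} (hφ : ∀ g, |φ g| ≤ C) (ψ : Lp ℝ 1 m) :
    |fn Λ φ ψ| ≤ C * ‖ψ‖ := by
  rw [L1.norm_eq_integral_norm, ← integral_const_mul, ← Real.norm_eq_abs]
  refine norm_integral_le_of_norm_le ((L1.integrable_coeFn ψ).norm.const_mul C)
    (Eventually.of_forall fun y => ?_)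
  rw [norm_mul, mul_comm]
  exact mul_le_mul_of_nonneg_right (hφ _) (norm_nonneg _)

theorem fn_sub {φ φ' : Γ → ℝ} {C : ℝ} (hφ : ∀ g, |φ g| ≤ C) (hφ' : ∀ g, |φ' g| ≤ C)
    (ψ : Lp ℝ 1 m) : fn Λ φ ψ - fn Λ φ' ψ = fn Λ (fun g => φ g - φ' g) ψ := by
  rw [fn, fn, fn, ← integral_sub (int_fn Λ hφ ψ) (int_fn Λ hφ' ψ)]
  simp only [mul_sub]

theorem fn_sum {ι : Type} [Fintype ι] {φ : ι → Γ → ℝ} {C : ℝ} (hφ : ∀ i g, |φ i g| ≤ C)
    (ψ : Lp ℝ 1 m) : ∑ i, fn Λ (φ i) ψ = fn Λ (fun g => ∑ i, φ i g) ψ := by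
  simp only [fn]
  rw [← integral_finsetSum _ fun i _ => int_fn Λ (hφ i) ψ]
  simp only [Finset.mul_sum]

theorem fn_ge {φ : Γ → ℝ} {C : ℝ} (hφ : ∀ g, |φ g| ≤ C) (h1 : ∀ g, 1 ≤ φ g) {ψ : Lp ℝ 1 m}
    (hψ : ∀ᵐ y ∂m, 0 ≤ ψ y) : ‖ψ‖ ≤ fn Λ φ ψ := by
  rw [L1.norm_eq_integral_norm]
  refine integral_mono_ae (L1.integrable_coeFn ψ).norm (int_fn Λ hφ ψ) ?_
  filter_upwards [hψ] with y hy
  rw [Real.norm_of_nonneg hy]
  exact le_mul_of_one_le_right hy (h1 _)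

variable [MeasurableMul G]

omit [Countable Γ] in
theorem fn_lt [m.IsMulLeftInvariant] (φ : Γ → ℝ) (γ : Γ) (ψ : Lp ℝ 1 m) :
    fn Λ φ (lt m (γ : G) ψ) = fn Λ (fun g => φ (γ * g)) ψ := by
  have h : ∀ᵐ y ∂m, lt m (γ : G) ψ y = ψ ((γ : G)⁻¹ * y) :=
    Lp.coeFn_compMeasurePreserving ψ (measurePreserving_mul_left m (γ : G)⁻¹)
  have h2 : fn Λ φ (lt m (γ : G) ψ) = ∫ y, ψ ((γ : G)⁻¹ * y) * φ (Λ.c y) ∂m := by
    refine integral_congr_ae ?_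
    filter_upwards [h] with y hy
    rw [hy]
  rw [h2, ← integral_mul_left_eq_self _ (γ : G)]
  simp only [inv_mul_cancel_left, Λ.c_mul, fn]

theorem rt_nonneg [m.IsMulRightInvariant] (g : G) {ψ : Lp ℝ 1 m} (hψ : ∀ᵐ y ∂m, 0 ≤ ψ y) :
    ∀ᵐ y ∂m, 0 ≤ rt m g ψ y := by
  have h : ∀ᵐ y ∂m, rt m g ψ y = ψ (y * g⁻¹) :=
    Lp.coeFn_compMeasurePreserving ψ (measurePreserving_mul_right m g⁻¹)
  filter_upwards [h, (measurePreserving_mul_right m g⁻¹).quasiMeasurePreserving.ae hψ] with y h1 h2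
  rw [h1]; exact h2

end Fun

section Set

variable {G : Type} [Group G] [MeasurableSpace G] [MeasurableMul G] (m : Measure G)
  [m.IsMulLeftInvariant] {ι A : Type} [Fintype ι]

/-- The compact convex set of tuples of functionals. -/
def KK (C : ℝ) (u : A → G) (e : A → ℝ) (γ : ι → G) : Set (ι × Lp ℝ 1 m → ℝ) :=
  {Φ | ∀ p, |Φ p| ≤ C * ‖p.2‖} ∩ ({Φ | ∀ i ψ ψ', Φ (i, ψ + ψ') = Φ (i, ψ) + Φ (i, ψ')} ∩
    ({Φ | ∀ i (c : ℝ) ψ, Φ (i, c • ψ) = c * Φ (i, ψ)} ∩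
      ({Φ | ∀ i a ψ, |Φ (i, lt m (u a) ψ) - Φ (i, ψ)| ≤ e a * ‖ψ‖} ∩
        {Φ | ∀ ψ : Lp ℝ 1 m, (∀ᵐ y ∂m, 0 ≤ ψ y) →
          ‖ψ‖ ≤ ∑ i, (Φ (i, lt m (γ i) ψ) - Φ (i, ψ))})))

variable (C : ℝ) (u : A → G) (e : A → ℝ) (γ : ι → G)

theorem isCompact_KK : IsCompact (KK m C u e γ) := by
  refine IsCompact.inter_right ?_ (IsClosed.inter ?_ (IsClosed.inter ?_ (IsClosed.inter ?_ ?_)))
  · have := isCompact_univ_pi fun p : ι × Lp ℝ 1 m =>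
      isCompact_Icc (a := -(C * ‖p.2‖)) (b := C * ‖p.2‖)
    convert this using 1
    ext Φ
    simp only [Set.mem_ofPred_eq, Set.mem_univ_pi, Set.mem_Icc, abs_le]
  · simp only [Set.ofPred_forall]
    exact isClosed_iInter fun _ => isClosed_iInter fun _ => isClosed_iInter fun _ =>
      isClosed_eq (by fun_prop) (by fun_prop)
  · simp only [Set.ofPred_forall]
    exact isClosed_iInter fun _ => isClosed_iInter fun _ => isClosed_iInter fun _ =>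
      isClosed_eq (by fun_prop) (by fun_prop)
  · simp only [Set.ofPred_forall]
    exact isClosed_iInter fun _ => isClosed_iInter fun _ => isClosed_iInter fun _ =>
      isClosed_le (by fun_prop) (by fun_prop)
  · simp only [Set.ofPred_forall]
    exact isClosed_iInter fun _ => isClosed_iInter fun _ =>
      isClosed_le (by fun_prop) (by fun_prop)

theorem abs_comb {x y r a b : ℝ} (hx : |x| ≤ r) (hy : |y| ≤ r) (ha : 0 ≤ a) (hb : 0 ≤ b)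
    (hab : a + b = 1) : |a * x + b * y| ≤ r := by
  rw [abs_le] at *
  constructor <;> nlinarith [hx.1, hx.2, hy.1, hy.2]

theorem convex_KK : Convex ℝ (KK m C u e γ) := by
  rintro Φ ⟨h1, h2, h3, h4, h5⟩ Ψ ⟨k1, k2, k3, k4, k5⟩ a b ha hb hab
  refine ⟨fun p => abs_comb (h1 p) (k1 p) ha hb hab, fun i ψ ψ' => ?_, fun i c ψ => ?_,
    fun i x ψ => ?_, fun ψ hψ => ?_⟩
  · simp only [Pi.add_apply, Pi.smul_apply, smul_eq_mul]
    rw [h2, k2]; ring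
  · simp only [Pi.add_apply, Pi.smul_apply, smul_eq_mul]
    rw [h3, k3]; ring
  · convert abs_comb (h4 i x ψ) (k4 i x ψ) ha hb hab using 2
    simp only [Pi.add_apply, Pi.smul_apply, smul_eq_mul]
    ring
  · have : ∑ i, ((a • Φ + b • Ψ) (i, lt m (γ i) ψ) - (a • Φ + b • Ψ) (i, ψ)) =
        a * ∑ i, (Φ (i, lt m (γ i) ψ) - Φ (i, ψ)) + b * ∑ i, (Ψ (i, lt m (γ i) ψ) - Ψ (i, ψ)) := by
      rw [Finset.mul_sum, Finset.mul_sum, ← Finset.sum_add_distrib]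
      refine Finset.sum_congr rfl fun i _ => ?_
      simp only [Pi.add_apply, Pi.smul_apply, smul_eq_mul]
      ring
    rw [this]
    have e1 := mul_le_mul_of_nonneg_left (h5 ψ hψ) ha
    have e2 := mul_le_mul_of_nonneg_left (k5 ψ hψ) hb
    have e3 : ‖ψ‖ = a * ‖ψ‖ + b * ‖ψ‖ := by rw [← add_mul, hab, one_mul]
    linarith

variable {m C u e γ}

/-- The components of a tuple as continuous linear functionals. -/
noncomputable def clm {Φ : ι × Lp ℝ 1 m → ℝ} (h : Φ ∈ KK m C u e γ) (i : ι) :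
    Lp ℝ 1 m →L[ℝ] ℝ :=
  LinearMap.mkContinuous ⟨⟨fun ψ => Φ (i, ψ), h.2.1 i⟩, h.2.2.1 i⟩ C fun ψ => h.1 (i, ψ)

theorem clm_apply {Φ : ι × Lp ℝ 1 m → ℝ} (h : Φ ∈ KK m C u e γ) (i : ι) (ψ : Lp ℝ 1 m) :
    clm h i ψ = Φ (i, ψ) := rfl

theorem stable_KK [TopologicalSpace G] [m.IsMulRightInvariant] (hc : Conv m) (g : G)
    {Φ : ι × Lp ℝ 1 m → ℝ} (h : Φ ∈ KK m C u e γ) :
    Φ ∘ (fun p : ι × Lp ℝ 1 m => (p.1, rt m g p.2)) ∈ KK m C u e γ := by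
  obtain ⟨h1, h2, h3, h4, h5⟩ := h
  refine ⟨fun p => ?_, fun i ψ ψ' => ?_, fun i c ψ => ?_, fun i x ψ => ?_, fun ψ hψ => ?_⟩
  · simpa using h1 (p.1, rt m g p.2)
  · simpa using h2 i (rt m g ψ) (rt m g ψ')
  · simpa using h3 i c (rt m g ψ)
  · simpa [hc.lt_rt] using h4 i x (rt m g ψ)
  · simpa [hc.lt_rt] using h5 (rt m g ψ) (rt_nonneg g hψ)

end Set

theorem par_le {L : Type} [LieRing L] [LieAlgebra ℚ L] (σ : L) (W : Submodule ℚ L)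
    (h0 : eig σ 0 ≤ W) (hp : pos σ ≤ W) : par σ ≤ W := by
  refine iSup₂_le fun c hc => ?_
  rcases hc.eq_or_lt with rfl | hc
  · exact h0
  · exact (le_iSup₂ (f := fun (c : ℚ) (_ : 0 < c) => eig σ c) c hc).trans hp

theorem am (hc : ConvStmt) (hm : MLStmt) : AMStmt := by
  intro L _ _ _ V _ _ _ G _ _ _ _ _ _ _ _ m _ _ Γ _ Λ 𝒢 F s₁ s₂ X₀ d l h D₁ D₂ h12 E₁ E₂ hl p₁ p₂
    hn hgen hX hd hX0 hh ι _ φ γ C hC hε hge
  have cv : Conv m := hc G m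
  choose Q hQ hQ' using hε
  set u : {ε : ℝ // 0 < ε} × Γ → G := fun a => (a.2 * h (Q a.1.1 a.1.2) * a.2⁻¹ : Γ) with hu
  set K := KK m C u (fun a => a.1.1) fun i => (γ i : G) with hK
  have hne : K.Nonempty := by
    refine ⟨fun p => fn Λ (φ p.1) p.2, fun p => fn_bound Λ (hC _) _, fun i => fn_add Λ (hC i),
      fun i => fn_smul Λ (φ i), fun i a ψ => ?_, fun ψ hψ => ?_⟩
    · simp only [hu]
      rw [fn_lt, fn_sub Λ (fun g => hC i _) (hC i)]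
      exact fn_bound Λ (fun g => hQ' _ _ i _ g) ψ
    · have hb : ∀ i g, |φ i (γ i * g) - φ i g| ≤ C + C := fun i g =>
        (abs_sub _ _).trans (add_le_add (hC _ _) (hC _ _))
      have : ∀ i, fn Λ (φ i) (lt m (γ i : G) ψ) - fn Λ (φ i) ψ =
          fn Λ (fun g => φ i (γ i * g) - φ i g) ψ := fun i => by
        rw [fn_lt, fn_sub Λ (fun g => hC i _) (hC i)]
      simp only [this]
      rw [fn_sum Λ hb]
      exact fn_ge Λ (C := ∑ _i : ι, (C + C)) (fun g => (Finset.abs_sum_le_sum_abs _ _).trans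
        (Finset.sum_le_sum fun i _ => hb i g)) hge hψ
  set ρ : G → ι × Lp ℝ 1 m → ι × Lp ℝ 1 m := fun g p => (p.1, rt m g p.2) with hρ
  have ρ1 : ∀ p, ρ 1 p = p := fun p => by simp [hρ, cv.rt_one]
  have ρm : ∀ g g' p, ρ (g * g') p = ρ g' (ρ g p) := fun g g' p => by simp [hρ, cv.rt_mul]
  have hcont : ∀ Φ ∈ K, ∀ p, Continuous fun g => Φ (ρ g p) := fun Φ hΦ p =>
    (clm hΦ p.1).continuous.comp (cv.cont_rt p.2)
  have hfl : Flag (s₂ :: s₁ :: l) := by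
    refine ⟨fun y hy => ?_, fun y hy => (hn y hy).1, hl⟩
    obtain ⟨c, z, hz, rfl⟩ := mem_sp_cons hy
    have : ⁅s₂, s₁⁆ = 0 := by rw [← lie_skew, h12, neg_zero]
    rw [lie_add, lie_smul, this, smul_zero, zero_add]
    exact sp_le_cons _ _ (hn z hz).2
  obtain ⟨Φ, hΦ, hfix⟩ := fix_flag 𝒢 F ρ ρ1 ρm (isCompact_KK ..) (convex_KK ..) hne
    (fun g Φ hΦ => stable_KK cv g hΦ) hcont _ hfl
  obtain ⟨f, hf, -⟩ := F.sub _ (isClosed_stab ρ ρ1 ρm Φ (hcont Φ hΦ))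
  let W : Submodule ℚ L :=
    { carrier := {z | 𝒢.j z ∈ f}
      zero_mem' := by simp
      add_mem' := fun ha hb => by simpa using add_mem ha hb
      smul_mem' := fun c z hz => by
        show 𝒢.j (c • z) ∈ f
        rw [𝒢.j_smul]; exact f.smul_mem _ hz }
  have hW : ∀ z, z ∈ W ↔ ∀ (t : ℝ) i ψ, Φ (i, rt m (𝒢.E (t • 𝒢.j z)) ψ) = Φ (i, ψ) := fun z =>
    (hf _).trans ⟨fun H t i ψ => congrFun (H t) (i, ψ), fun H t => funext fun p => H t p.1 p.2⟩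
  have hsp : sp (s₂ :: s₁ :: l) ≤ W := fun z hz =>
    (hf _).2 (hfix _ (Submodule.subset_span ⟨z, hz, rfl⟩))
  have hl' : sp l ≤ W := (sp_le_cons _ _).trans ((sp_le_cons _ _).trans hsp)
  have key : ∀ σ, Diag σ → Erg Λ (𝒢.E (𝒢.j σ)) → σ ∈ W → pos σ ≤ W → par σ ≤ W := by
    intro σ hσ hE hs hp
    refine par_le σ W (fun z hz => (hW z).2 fun t i => ?_) hp
    refine hm L V G m Γ Λ 𝒢 F cv σ s₂ X₀ d h (clm hΦ i) hσ hE hX hd hX0 hh
      (fun ε hε => ⟨Q ε hε, hQ ε hε, fun a => hΦ.2.2.2.1 i (⟨ε, hε⟩, a)⟩) (fun ψ => ?_)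
      (fun x hx t => (hW x).1 (hp hx) t i) z hz t
    have := (hW σ).1 hs 1 i ψ
    rwa [one_smul] at this
  have htop : stab ρ ρ1 ρm Φ = ⊤ := by
    refine F.gen _ _ ?_ hgen
    rintro z (hz | hz)
    · exact (hf _).1 (key s₁ D₁ E₁ (hsp (sp_le_cons _ _ (mem_sp_self _ _))) (p₁.trans hl') hz)
    · exact (hf _).1 (key s₂ D₂ E₂ (hsp (mem_sp_self _ _)) (p₂.trans hl') hz)
  have hleft : ∀ i g ψ, Φ (i, lt m g ψ) = Φ (i, ψ) := fun i =>
    cv.const (clm hΦ i) fun g ψ => congrFun (htop.ge (Subgroup.mem_top g)) (i, ψ)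
  obtain ⟨U, hU, hUo⟩ := exists_compact_mem_nhds (1 : G)
  have hpos : 0 < m U := Measure.measure_pos_of_mem_nhds m hUo
  have hψ := hΦ.2.2.2.2 (indicatorConstLp 1 hU.measurableSet hU.measure_ne_top (1 : ℝ)) (by
    filter_upwards [indicatorConstLp_coeFn (p := 1) (hs := hU.measurableSet)
      (hμs := hU.measure_ne_top (μ := m)) (c := (1 : ℝ))] with y hy
    rw [hy]
    exact Set.indicator_nonneg (fun _ _ => zero_le_one) y)
  simp only [hleft, sub_self, Finset.sum_const_zero] at hψ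
  rw [norm_indicatorConstLp one_ne_zero ENNReal.one_ne_top] at hψ
  have : 0 < m.real U := ENNReal.toReal_pos hpos.ne' hU.measure_ne_top
  simp at hψ
  linarith

end Pool.Agent.MP_2b113a_an.H41
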