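import Pool.Agent.MP_2b113a_an.H33.Defs

/-!
Fixed points of commuting substitutions on compact convex sets of functions, and fixed points
along a flag.
-/

namespace Pool.Agent.MP_2b113a_an.H41

open Filter Topology Pool.Agent.MP_2b113a_an.H33

section MK

variable {J : Type}

theorem mk_one {K : Set (J → ℝ)} (hc : IsCompact K) (hv : Convex ℝ K) (hn : K.Nonempty)
    (τ : J → J) (hτ : ∀ Φ ∈ K, Φ ∘ τ ∈ K) : ∃ Φ ∈ K, Φ ∘ τ = Φ := by
  obtain ⟨Φ₀, h₀⟩ := hn
  have hit : ∀ k : ℕ, Φ₀ ∘ τ^[k] ∈ K := fun k => by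
    induction k with
    | zero => simpa using h₀
    | succ k ih => rw [Function.iterate_succ, ← Function.comp_assoc]; exact hτ _ ih
  set A : ℕ → J → ℝ := fun n => ∑ k ∈ Finset.range (n + 1), ((n + 1 : ℕ) : ℝ)⁻¹ • (Φ₀ ∘ τ^[k])
    with hA
  have hAK : ∀ n, A n ∈ K := fun n => by
    refine hv.sum_mem (fun _ _ => by positivity) ?_ fun k _ => hit k
    rw [Finset.sum_const, Finset.card_range, nsmul_eq_mul, mul_inv_cancel₀ (by positivity)]
  obtain ⟨Φ, hΦ, hlim⟩ := hc.ultrafilter_le_nhds ((hyperfilter ℕ).map A) (by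
    rw [Ultrafilter.coe_map, le_principal_iff, mem_map]
    exact Eventually.of_forall hAK)
  refine ⟨Φ, hΦ, funext fun j => ?_⟩
  have hl : ∀ j, Tendsto (fun n => A n j) (hyperfilter ℕ) (𝓝 (Φ j)) := fun j =>
    ((continuous_apply j).tendsto Φ).comp hlim
  obtain ⟨M, hM⟩ := (hc.image (continuous_apply j)).isBounded.exists_norm_le
  have hd : ∀ n, A n (τ j) - A n j =
      ((n + 1 : ℕ) : ℝ)⁻¹ * ((Φ₀ ∘ τ^[n + 1]) j - (Φ₀ ∘ τ^[0]) j) := fun n => by
    simp only [hA, Finset.sum_apply, Pi.smul_apply, smul_eq_mul, ← Finset.mul_sum, ← mul_sub]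
    rw [← Finset.sum_sub_distrib, ← Finset.sum_range_sub (fun k => (Φ₀ ∘ τ^[k]) j)]
    rfl
  have h0 : Tendsto (fun n => A n (τ j) - A n j) atTop (𝓝 0) := by
    have h1 : Tendsto (fun n : ℕ => ((n + 1 : ℕ) : ℝ)⁻¹ * (M + M)) atTop (𝓝 0) := by
      have := (tendsto_inv_atTop_zero.comp (tendsto_natCast_atTop_atTop (R := ℝ))).comp
        (tendsto_add_atTop_nat 1)
      simpa using this.mul_const (M + M)
    refine squeeze_zero_norm (fun n => ?_) h1
    rw [hd, norm_mul, Real.norm_of_nonneg (by positivity)]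
    refine mul_le_mul_of_nonneg_left ((norm_sub_le _ _).trans (add_le_add ?_ ?_)) (by positivity)
    · exact hM _ ⟨_, hit _, rfl⟩
    · exact hM _ ⟨_, hit _, rfl⟩
  have h2 := tendsto_nhds_unique ((hl (τ j)).sub (hl j))
    (h0.mono_left (Nat.hyperfilter_le_atTop))
  exact sub_eq_zero.1 h2

theorem isClosed_fix (τ : J → J) : IsClosed {Φ : J → ℝ | Φ ∘ τ = Φ} :=
  isClosed_eq (by fun_prop) continuous_id

theorem convex_fix (τ : J → J) : Convex ℝ {Φ : J → ℝ | Φ ∘ τ = Φ} := by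
  intro Φ hΦ Ψ hΨ a b _ _ _
  funext j
  have h1 : Φ (τ j) = Φ j := congrFun hΦ j
  have h2 : Ψ (τ j) = Ψ j := congrFun hΨ j
  simp [h1, h2]

theorem mk_comm {K : Set (J → ℝ)} (hc : IsCompact K) (hv : Convex ℝ K) (hn : K.Nonempty)
    {A : Type} (τ : A → J → J) (hτ : ∀ a, ∀ Φ ∈ K, Φ ∘ τ a ∈ K)
    (hcomm : ∀ a b, τ a ∘ τ b = τ b ∘ τ a) : ∃ Φ ∈ K, ∀ a, Φ ∘ τ a = Φ := by
  classical
  have key : ∀ F : Finset A, (K ∩ ⋂ a ∈ F, {Φ : J → ℝ | Φ ∘ τ a = Φ}).Nonempty := fun F => by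
    induction F using Finset.induction_on with
    | empty => simpa using hn
    | insert b F _ ih =>
      obtain ⟨Φ, hΦ, hb⟩ := mk_one
        (hc.inter_right (isClosed_biInter fun a _ => isClosed_fix (τ a)))
        (hv.inter (convex_iInter₂ fun a _ => convex_fix (τ a))) ih (τ b) (by
          rintro Φ ⟨h1, h2⟩
          refine ⟨hτ b Φ h1, ?_⟩
          simp only [Set.mem_iInter, Set.mem_ofPred_eq] at h2 ⊢
          intro a ha
          rw [Function.comp_assoc, hcomm, ← Function.comp_assoc, h2 a ha])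
      refine ⟨Φ, hΦ.1, ?_⟩
      have h2 := hΦ.2
      simp only [Set.mem_iInter, Set.mem_ofPred_eq, Finset.mem_insert] at h2 ⊢
      rintro a (rfl | ha)
      · exact hb
      · exact h2 a ha
  obtain ⟨Φ, h1, h2⟩ := hc.inter_iInter_nonempty _ (fun a => isClosed_fix (τ a)) key
  exact ⟨Φ, h1, fun a => Set.mem_iInter.1 h2 a⟩

end MK

section Flag

variable {L : Type} [LieRing L] [LieAlgebra ℚ L] {V : Type} [NormedAddCommGroup V]
  [NormedSpace ℝ V] {G : Type} [Group G] [TopologicalSpace G] {J : Type}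

/-- The stabiliser of a function for a right action. -/
def stab (ρ : G → J → J) (h1 : ∀ j, ρ 1 j = j) (hm : ∀ g h j, ρ (g * h) j = ρ h (ρ g j))
    (Φ : J → ℝ) : Subgroup G where
  carrier := {g | Φ ∘ ρ g = Φ}
  one_mem' := funext fun j => by simp [h1]
  mul_mem' := by
    intro g h hg hh
    funext j
    have := congrFun hh (ρ g j)
    have h2 := congrFun hg j
    simp only [Function.comp_apply] at this h2 ⊢
    rw [hm, this, h2]
  inv_mem' := by
    intro g hg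
    funext j
    have := congrFun hg (ρ g⁻¹ j)
    simp only [Function.comp_apply] at this ⊢
    rw [← this, ← hm, inv_mul_cancel, h1]

theorem isClosed_stab (ρ : G → J → J) (h1 : ∀ j, ρ 1 j = j)
    (hm : ∀ g h j, ρ (g * h) j = ρ h (ρ g j)) (Φ : J → ℝ)
    (hΦ : ∀ j, Continuous fun g => Φ (ρ g j)) : IsClosed (stab ρ h1 hm Φ : Set G) :=
  isClosed_eq (f := fun g => Φ ∘ ρ g) (continuous_pi hΦ) continuous_const

theorem mem_sp_cons {x y : L} {l : List L} (h : y ∈ sp (x :: l)) :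
    ∃ c : ℚ, ∃ z ∈ sp l, y = c • x + z := by
  have : {z | z ∈ x :: l} = insert x {z | z ∈ l} := by ext; simp
  rw [sp, this] at h
  exact Submodule.mem_span_insert.1 h

theorem sp_le_cons (x : L) (l : List L) : sp l ≤ sp (x :: l) :=
  Submodule.span_mono fun _ hz => List.mem_cons_of_mem _ hz

theorem mem_sp_self (x : L) (l : List L) : x ∈ sp (x :: l) :=
  Submodule.subset_span List.mem_cons_self

theorem fix_flag (𝒢 : LG L V G) (F : 𝒢.Facts) (ρ : G → J → J) (h1 : ∀ j, ρ 1 j = j)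
    (hm : ∀ g h j, ρ (g * h) j = ρ h (ρ g j)) {K : Set (J → ℝ)} (hc : IsCompact K)
    (hv : Convex ℝ K) (hn : K.Nonempty) (hρ : ∀ g, ∀ Φ ∈ K, Φ ∘ ρ g ∈ K)
    (hcont : ∀ Φ ∈ K, ∀ j, Continuous fun g => Φ (ρ g j)) (l : List L) (hl : Flag l) :
    ∃ Φ ∈ K, ∀ y ∈ Submodule.span ℝ (𝒢.j '' sp l), ∀ t : ℝ, Φ ∘ ρ (𝒢.E (t • y)) = Φ := by
  induction l with
  | nil =>
    obtain ⟨Φ, hΦ⟩ := hn
    refine ⟨Φ, hΦ, fun y hy t => ?_⟩
    have : y = 0 := by simpa [sp] using hy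
    funext j
    simp [this, F.E_zero, h1]
  | cons x l ih =>
    set W := Submodule.span ℝ (𝒢.j '' sp l) with hW
    have hbr : ∀ w ∈ W, 𝒢.br (𝒢.j x) w ∈ W := fun w hw => by
      induction hw using Submodule.span_induction with
      | mem w hw =>
        obtain ⟨z, hz, rfl⟩ := hw
        rw [𝒢.br_j, 𝒢.ext_j]
        exact Submodule.subset_span ⟨_, hl.1 z hz, rfl⟩
      | zero => simp
      | add a b _ _ ha hb => rw [map_add]; exact add_mem ha hb
      | smul c a _ ha => rw [map_smul]; exact W.smul_mem c ha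
    obtain ⟨Φ, hΦ, hx⟩ := mk_comm
      (K := K ∩ ⋂ y ∈ W, ⋂ t : ℝ, {Φ : J → ℝ | Φ ∘ ρ (𝒢.E (t • y)) = Φ})
      (hc.inter_right (isClosed_biInter fun y _ => isClosed_iInter fun t => isClosed_fix _))
      (hv.inter (convex_iInter₂ fun y _ => convex_iInter fun t => convex_fix _))
      (by
        obtain ⟨Φ, h, h'⟩ := ih hl.2
        refine ⟨Φ, h, ?_⟩
        simp only [Set.mem_iInter, Set.mem_ofPred_eq]
        exact h')
      (fun t : ℝ => ρ (𝒢.E (t • 𝒢.j x)))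
      (by
        rintro t Φ ⟨h, h'⟩
        refine ⟨hρ _ Φ h, ?_⟩
        simp only [Set.mem_iInter, Set.mem_ofPred_eq] at h' ⊢
        intro y hy s
        have hy' : 𝒢.Ad (𝒢.E ((-t) • 𝒢.j x)) y ∈ W := F.stable' W _ (fun w hw => by
          rw [map_smul]; exact W.smul_mem _ (hbr w hw)) y hy
        have hinv : 𝒢.E (t • 𝒢.j x) * 𝒢.E ((-t) • 𝒢.j x) = 1 := by
          rw [← F.E_smul, add_neg_cancel, zero_smul, F.E_zero]
        have he : 𝒢.E (s • y) * 𝒢.E (t • 𝒢.j x) =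
            𝒢.E (t • 𝒢.j x) * 𝒢.E (s • 𝒢.Ad (𝒢.E ((-t) • 𝒢.j x)) y) := by
          rw [← (𝒢.Ad _).map_smul, ← 𝒢.E_conj, ← mul_assoc, ← mul_assoc, hinv, one_mul,
            ← eq_inv_of_mul_eq_one_left hinv]
        funext j
        have := congrFun (h' _ hy' s) (ρ (𝒢.E (t • 𝒢.j x)) j)
        simp only [Function.comp_apply] at this ⊢
        rw [← hm, he, hm, this])
      (fun s t => funext fun j => by
        simp only [Function.comp_apply]
        rw [← hm, ← hm, ← F.E_smul, ← F.E_smul, add_comm])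
    obtain ⟨f, hf, -⟩ := F.sub _ (isClosed_stab ρ h1 hm Φ (hcont Φ hΦ.1))
    refine ⟨Φ, hΦ.1, fun y hy => (hf y).1 ?_⟩
    refine (Submodule.span_le.2 ?_) hy
    rintro _ ⟨z, hz, rfl⟩
    obtain ⟨c, z', hz', rfl⟩ := mem_sp_cons hz
    rw [map_add, 𝒢.j_smul]
    refine add_mem (f.smul_mem _ ((hf _).2 hx)) ((hf _).2 ?_)
    have h' := hΦ.2
    simp only [Set.mem_iInter, Set.mem_ofPred_eq] at h'
    exact h' _ (Submodule.subset_span ⟨_, hz', rfl⟩)

end Flag

end Pool.Agent.MP_2b113a_an.H41
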